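import Pool.Agent.Y811.IR.Stm

/-! Fatou's theorem: the immediate basin of some point of an attracting cycle contains the critical
point (job IR-FATOU). -/

set_option autoImplicit false

open Filter Topology Metric Set

namespace Pool.Agent.Y304.IR

open Pool.Agent.Y811.IR

theorem norm_q_ge (c z : ℂ) {t : ℝ} (ht : 0 ≤ t) (hz : 1 + ‖c‖ + t ≤ ‖z‖) :
    1 + ‖c‖ + 2 * t ≤ ‖q c z‖ := by
  have h1 : ‖z ^ 2‖ ≤ ‖q c z‖ + ‖c‖ := by
    have h : z ^ 2 = q c z - c := by rw [q]; ring
    rw [h]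
    exact norm_sub_le _ _
  rw [norm_pow] at h1
  have hc := norm_nonneg c
  have h2 : (1 + ‖c‖ + t) ^ 2 ≤ ‖z‖ ^ 2 := pow_le_pow_left₀ (by positivity) hz 2
  nlinarith [mul_nonneg hc ht, mul_nonneg hc hc, mul_nonneg ht ht]

theorem norm_iter_ge (c z : ℂ) {t : ℝ} (ht : 0 ≤ t) (hz : 1 + ‖c‖ + t ≤ ‖z‖) (n : ℕ) :
    1 + ‖c‖ + 2 ^ n * t ≤ ‖(q c)^[n] z‖ := by
  induction n with
  | zero => simpa using hz
  | succ n ih =>
    rw [Function.iterate_succ_apply']
    have := norm_q_ge c ((q c)^[n] z) (by positivity) ih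
    rw [pow_succ]
    linarith

/-- basins are bounded -/
theorem basin_bdd (c : ℂ) (N : ℕ) (hN : 1 ≤ N) (b w : ℂ) (hw : w ∈ Basin ((q c)^[N]) b) :
    ‖w‖ ≤ 1 + ‖c‖ := by
  by_contra hcon
  rw [not_le] at hcon
  have ht : 0 < ‖w‖ - (1 + ‖c‖) := by linarith
  have h1 : ∀ n : ℕ, (n : ℝ) * (‖w‖ - (1 + ‖c‖)) ≤ ‖((q c)^[N])^[n] w‖ := by
    intro n
    rw [← Function.iterate_mul]
    have h2 := norm_iter_ge c w ht.le (by linarith) (N * n)
    have h3 : (n : ℝ) ≤ 2 ^ (N * n) := by
      have h4 : n ≤ N * n := Nat.le_mul_of_pos_left n hN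
      have h5 : N * n < 2 ^ (N * n) := Nat.lt_two_pow_self
      exact_mod_cast h4.trans h5.le
    have h6 := mul_le_mul_of_nonneg_right h3 ht.le
    have hc := norm_nonneg c
    linarith
  have h2 : Tendsto (fun n : ℕ => ‖((q c)^[N])^[n] w‖) atTop atTop :=
    tendsto_atTop_mono h1 (tendsto_natCast_atTop_atTop.atTop_mul_const ht)
  have h3 : Tendsto (fun n : ℕ => ‖((q c)^[N])^[n] w‖) atTop (𝓝 ‖b‖) :=
    (continuous_norm.tendsto b).comp hw
  exact not_tendsto_nhds_of_tendsto_atTop h2 _ h3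

theorem t_FATOU (h2 : S_SURJ) (h3 : S_BRANCH) : S_FATOU := by
  intro c N a ha
  have hattr : ∀ i : ℕ, Attr c N ((q c)^[i] a) := by
    intro i
    induction i with
    | zero => exact ha
    | succ i ih =>
      rw [Function.iterate_succ_apply']
      exact (h2 c N _ ih).1
  by_contra hcon
  push Not at hcon
  obtain ⟨r, hr, hbr⟩ := h3 c N a ha fun i => hcon _ (hattr i)
  obtain ⟨hN, hfix, hlam⟩ := ha
  have hdq : Differentiable ℂ (q c) := by
    unfold q
    fun_prop
  have hdF : HasDerivAt ((q c)^[N]) (deriv ((q c)^[N]) a) a :=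
    ((hdq.iterate N) a).hasDerivAt
  have hfixm : ∀ m : ℕ, (q c)^[N * m] a = a := fun m => by
    rw [Function.iterate_mul]
    exact Function.iterate_fixed hfix m
  have key : ∀ k : ℕ, 1 ≤ ‖deriv ((q c)^[N]) a‖ ^ k * ((1 + ‖c‖) / (r / 2)) := by
    intro k
    obtain ⟨h, hd, hha, hinv, hmem⟩ := hbr (N * k)
    have hha' : h a = a := by
      rw [hha, show (N - 1) * (N * k) = N * ((N - 1) * k) by ring]
      exact hfixm _
    have hdh : HasDerivAt h (deriv h a) a :=
      (hd.differentiableAt (ball_mem_nhds a hr)).hasDerivAt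
    have hFk : HasDerivAt ((q c)^[N * k]) (deriv ((q c)^[N]) a ^ k) (h a) := by
      rw [hha', Function.iterate_mul]
      exact HasDerivAt.iterate a hdF hfix k
    have hcomp := hFk.comp a hdh
    have hid : HasDerivAt ((q c)^[N * k] ∘ h) 1 a := by
      refine (hasDerivAt_id a).congr_of_eventuallyEq ?_
      filter_upwards [ball_mem_nhds a hr] with z hz
      exact hinv z hz
    have h1 := hcomp.unique hid
    have hbound : ‖deriv h a‖ ≤ (1 + ‖c‖) / (r / 2) := by
      have hsub : closedBall a (r / 2) ⊆ ball a r := closedBall_subset_ball (by linarith)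
      refine Complex.norm_deriv_le_of_forall_mem_sphere_norm_le (by positivity) ?_ ?_
      · refine (hd.mono ?_).diffContOnCl
        exact closure_ball_subset_closedBall.trans hsub
      · intro z hz
        refine basin_bdd c N hN _ _ (connectedComponentIn_subset _ _ (hmem z ?_))
        exact hsub (sphere_subset_closedBall hz)
    calc (1 : ℝ) = ‖deriv ((q c)^[N]) a ^ k * deriv h a‖ := by rw [h1, norm_one]
      _ = ‖deriv ((q c)^[N]) a‖ ^ k * ‖deriv h a‖ := by rw [norm_mul, norm_pow]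
      _ ≤ _ := mul_le_mul_of_nonneg_left hbound (by positivity)
  have hM : 0 < (1 + ‖c‖) / (r / 2) := by positivity
  obtain ⟨k, hk⟩ := exists_pow_lt_of_lt_one (inv_pos.mpr hM) hlam
  have h4 := mul_lt_mul_of_pos_right hk hM
  rw [inv_mul_cancel₀ hM.ne'] at h4
  exact absurd (key k) (not_le.mpr h4)

end Pool.Agent.Y304.IR
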